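import Mathlib
import Pool.Agent.H88.Pex4
import Pool.Agent.H88.PexDefs

open Pool.Agent.H88.Pex Filter Topology

theorem Pool.Agent.Results.MP_4d6431_an.Infinite.result (n : ℕ) (hn : 3 ≤ n) :
    Tendsto (fun p => aeN p n) (𝓝[>] 0) (𝓝 ⊤) :=
  aeN_top hn
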