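import Mathlib
import Pool.Agent.H88.Pex4
import Pool.Agent.H88.PexDefs

open Pool.Agent.H88.Pex

theorem Pool.Agent.Results.MP_4d6431_an.Sharp.result (n m : ℕ) (hn : 3 ≤ n) :
    SS n m = m + 1 :=
  SS_eq hn m
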